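import Pool.Agent.Lib.helper10.Occ3
import Pool.Agent.Lib.helper10.Dig

namespace Pool.Agent.Results.MP_f8c24f_lc.NPHard

open Pool.Agent.Cx Pool.Agent.Cx.Oc Pool.Agent.Cx.Dg List

/-- the point of the plane at which the coordinate list `C` places vertex `a` -/
def pos (C : List (ℕ × ℕ)) (a : ℕ) : ℝ × ℝ := ((C.getD a (0, 0)).1, (C.getD a (0, 0)).2)

/-- `C` is a plane straight-line drawing of the digraph `M` -/
def Plane (M : List (List Bool)) (C : List (ℕ × ℕ)) : Prop :=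
  C.length = M.length ∧ C.Nodup ∧
    (∀ a b v, Entry M a b → v < M.length → pos C v ∉ openSegment ℝ (pos C a) (pos C b)) ∧
    ∀ a b c d, Entry M a b → Entry M c d → s(a, b) ≠ s(c, d) →
      Disjoint (openSegment ℝ (pos C a) (pos C b)) (openSegment ℝ (pos C c) (pos C d))

/-- the points of the plane on no vertex and no arc -/
def Free (M : List (List Bool)) (C : List (ℕ × ℕ)) : Set (ℝ × ℝ) :=
  {z | (∀ a < M.length, z ≠ pos C a) ∧ ∀ a b, Entry M a b → z ∉ openSegment ℝ (pos C a) (pos C b)}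

/-- `P` is the vertex sequence of a directed path from `r` to `s` -/
def IsPath (M : List (List Bool)) (r s : ℕ) (P : List ℕ) : Prop :=
  P.Nodup ∧ P.head? = some r ∧ P.getLast? = some s ∧ P.IsChain (Entry M)

/-- solvable instances `((D, C), T, F)` with all terminals on the boundaries of at most `p` faces -/
def PDP (p : ℕ) (z : (List (List Bool) × List (ℕ × ℕ)) × List (ℕ × ℕ) × List (List Bool)) : Prop :=
  IsDi z.1.1 ∧ Plane z.1.1 z.1.2 ∧ (∀ t ∈ z.2.1, t.1 < z.1.1.length ∧ t.2 < z.1.1.length) ∧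
  (∃ Z : Fin p → ℝ × ℝ, (∀ l, Z l ∈ Free z.1.1 z.1.2) ∧ ∀ t ∈ z.2.1, ∀ v ∈ [t.1, t.2],
    ∃ l, pos z.1.2 v ∈ frontier (connectedComponentIn (Free z.1.1 z.1.2) (Z l))) ∧
  IsGraph z.2.2 ∧ z.2.2.length = z.2.1.length ∧
  ∃ P : ℕ → List ℕ, (∀ i, ∀ t ∈ z.2.1[i]?, IsPath z.1.1 t.1 t.2 (P i)) ∧
    ∀ i j, Entry z.2.2 i j → (P i).Disjoint (P j)

def arcs : List (ℕ × ℕ) := [(3, 0), (3, 1), (3, 2), (0, 4), (1, 4), (2, 4), (5, 0), (5, 1), (0, 6), (1, 6),
  (7, 1), (7, 2), (1, 8), (2, 8)]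
def ex : List (ℕ × ℕ) := [(9, 3), (9, 4), (10, 5), (10, 6), (10, 0), (10, 1), (11, 7), (11, 8), (11, 2)]
def XX : List (ℕ × ℕ) := [(3, 7), (8, 8), (13, 8), (8, 1), (7, 13), (6, 4), (6, 9), (10, 4), (11, 9),
  (1, 5), (7, 7), (10, 6)]
def DD : List (List Bool) := mat (range 9) fun a b => decide ((a, b) ∈ arcs)

lemma ent {a b : ℕ} : Entry DD a b ↔ (a, b) ∈ arcs := by
  have : ∀ e ∈ arcs, e.1 < 9 ∧ e.2 < 9 := by decide
  simp [DD, Entry, mat_get, -getD_eq_getElem?_getD]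
  exact ⟨fun h => h.2.2, fun h => ⟨(this _ h).2, (this _ h).1, h⟩⟩

def ori (a b c : ℕ) : ℤ := (((XX.getD b (0, 0)).1 : ℤ) - (XX.getD a (0, 0)).1) *
  ((XX.getD c (0, 0)).2 - (XX.getD a (0, 0)).2) - ((XX.getD b (0, 0)).2 - (XX.getD a (0, 0)).2) *
  ((XX.getD c (0, 0)).1 - (XX.getD a (0, 0)).1)
def sep (a b c d : ℕ) : Prop := 0 ≤ ori a b c * ori a b d ∧ ori a b c + ori a b d ≠ 0
instance (a b c d : ℕ) : Decidable (sep a b c d) := by unfold sep; infer_instance

lemma sp {a b c d : ℕ} (h : sep a b c d) :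
    Disjoint (openSegment ℝ (pos XX a) (pos XX b)) (openSegment ℝ (pos XX c) (pos XX d)) := by
  refine Set.disjoint_left.2 fun z ⟨s, t, _, _, e, h1⟩ ⟨u, w, p, q, e', h2⟩ => ?_
  have k := h1.trans h2.symm
  simp only [pos, Prod.smul_mk, Prod.mk_add_mk, smul_eq_mul, Prod.mk.injEq] at k
  obtain rfl : s = 1 - t := by linarith
  have z : u * (ori a b c : ℝ) + w * ori a b d = 0 := by
    obtain rfl : u = 1 - w := by linarith
    simp only [ori]; push_cast
    linear_combination (((XX.getD b (0, 0)).2 : ℝ) - (XX.getD a (0, 0)).2) * k.1 -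
      (((XX.getD b (0, 0)).1 : ℝ) - (XX.getD a (0, 0)).1) * k.2
  obtain ⟨h, h'⟩ := h
  have h : (0 : ℝ) ≤ ori a b c * ori a b d := by exact_mod_cast h
  have h' : (ori a b c : ℝ) + ori a b d ≠ 0 := by exact_mod_cast h'
  generalize (ori a b c : ℝ) = x at *
  generalize (ori a b d : ℝ) = y at *
  have a1 : u * x ^ 2 ≤ 0 := by nlinarith [mul_nonneg q.le h, congrArg (· * x) z]
  have a2 : w * y ^ 2 ≤ 0 := by nlinarith [mul_nonneg p.le h, congrArg (· * y) z]
  have : x = 0 := by_contra fun n => (mul_pos p (sq_pos_of_ne_zero n)).not_ge a1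
  have : y = 0 := by_contra fun n => (mul_pos q (sq_pos_of_ne_zero n)).not_ge a2
  exact h' (by simp [*])

lemma nv {a b v : ℕ} (x : a < 12) (y : b < 12) (z : v < 12) (n : a ≠ b) :
    pos XX v ∉ openSegment ℝ (pos XX a) (pos XX b) ∧ pos XX a ≠ pos XX b := by
  have k : pos XX a ≠ pos XX b := fun e => by
    have : ∀ a < 12, ∀ b < 12, XX.getD a (0, 0) = XX.getD b (0, 0) → a = b := by decide
    simp only [pos, Prod.mk.injEq, Nat.cast_inj] at e
    exact n (this a x b y (Prod.ext e.1 e.2))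
  have : ∀ a < 12, ∀ b < 12, ∀ v < 12, a = b ∨ v = a ∨ v = b ∨ sep a b v v := by decide +kernel
  refine ⟨?_, k⟩
  rcases this a x b y v z with h | rfl | rfl | h
  · exact (n h).elim
  · simpa using k
  · simpa using k
  · simpa using (sp h).symm

lemma geo : IsDi DD ∧ Plane DD (XX.take 9) ∧ ∃ Z : Fin 3 → ℝ × ℝ, (∀ l, Z l ∈ Free DD (XX.take 9)) ∧ ∀ v < 9,
    ∃ l, pos (XX.take 9) v ∈ frontier (connectedComponentIn (Free DD (XX.take 9)) (Z l)) := by
  have lt : ∀ e ∈ arcs, e.1 < 9 ∧ e.2 < 9 ∧ e.1 ≠ e.2 := by decide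
  have po : ∀ a < 9, pos (XX.take 9) a = pos XX a := fun a h => by simp [pos, h]
  have dj : ∀ e ∈ arcs ++ ex, ∀ f ∈ arcs, s(e.1, e.2) = s(f.1, f.2) ∨ sep e.1 e.2 f.1 f.2 ∨ sep f.1 f.2 e.1 e.2 := by
    decide +kernel
  have l9 : DD.length = 9 := rfl
  have fr : ∀ l : Fin 3, pos XX (9 + l) ∈ Free DD (XX.take 9) := fun l => ⟨fun a h => by
      rw [po a h]; exact (nv (v := 0) (by omega) (by omega) (by omega) (by omega)).2, fun a b e => by
      obtain ⟨x, y, n⟩ := lt _ (ent.1 e)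
      rw [po a x, po b y]; exact (nv (by omega) (by omega) (by omega) n).1⟩
  refine ⟨⟨mat_row _ _, fun i h => (lt _ (ent.1 h)).2.2 rfl⟩, ⟨rfl, by decide, fun a b v e h => ?_,
    fun a b c d e e' n => ?_⟩, _, fr, fun v h => ?_⟩
  · obtain ⟨x, y, n⟩ := lt _ (ent.1 e)
    rw [po a x, po b y, po v h]; exact (nv (by omega) (by omega) (by omega) n).1
  · obtain ⟨x, y, -⟩ := lt _ (ent.1 e)
    obtain ⟨x', y', -⟩ := lt _ (ent.1 e')
    rw [po a x, po b y, po c x', po d y']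
    exact ((dj _ (mem_append_left _ (ent.1 e)) _ (ent.1 e')).resolve_left n).elim sp fun h => (sp h).symm
  · obtain ⟨l, e⟩ : ∃ l : Fin 3, (9 + l.1, v) ∈ ex := by revert v; decide
    have s1 : insert (pos XX (9 + l)) (openSegment ℝ (pos XX (9 + l)) (pos XX v)) ⊆ Free DD (XX.take 9) := by
      refine Set.insert_subset (fr l) fun z k => ⟨fun a h e => ?_, fun a b e' => ?_⟩
      · rw [e, po a h] at k
        exact (nv (by omega) (by omega) (by omega) (by omega)).1 k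
      · obtain ⟨x, y, -⟩ := lt _ (ent.1 e')
        rw [po a x, po b y]
        refine Set.disjoint_left.1 (((dj _ (mem_append_right _ e) _ (ent.1 e')).resolve_left ?_).elim sp
          fun h => (sp h).symm) k
        simp only [Sym2.eq_iff] at x y ⊢; omega
    have s2 := ((convex_openSegment (𝕜 := ℝ) (pos XX (9 + l)) (pos XX v)).isPreconnected.subset_closure
      (Set.subset_insert _ _) (Set.insert_subset (by rw [closure_openSegment]; exact left_mem_segment ..)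
        subset_closure)).subset_connectedComponentIn (Set.mem_insert _ _) s1
    refine ⟨l, closure_mono ((Set.subset_insert _ _).trans s2) ?_, fun k => ?_⟩
    · rw [closure_openSegment, po v h]; exact right_mem_segment ..
    · exact (connectedComponentIn_subset _ _ (interior_subset k)).1 v h rfl

def tt (t : ℕ) : ℕ × ℕ := if t = 0 then (3, 4) else if t = 1 then (5, 6) else if t = 2 then (7, 8) else
  if t = 3 then (5, 0) else if t = 4 then (5, 1) else (7, 2)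
def al (t m : ℕ) : Prop := m < 3 ∧ (t = 0 ∨ (t = 1 ∧ m < 2) ∨ (t = 2 ∧ 0 < m) ∨ m + 3 = t)
instance : DecidableRel al := fun _ _ => by unfold al; infer_instance
def pa (t m : ℕ) : List ℕ := if t < 3 then [(tt t).1, m, (tt t).2] else [(tt t).1, m]

lemma p1 {t m : ℕ} (h : al t m) : IsPath DD (tt t).1 (tt t).2 (pa t m) := by
  have := h.1
  have : t < 6 := by unfold al at h; omega
  interval_cases t <;> interval_cases m <;> simp [al] at h <;> simp [IsPath, pa, tt, ent, arcs]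

lemma p2 {t m s n : ℕ} (h : al t m) (k : al s n) (c : t ≠ s ∧ (t = 0 ∨ s = 0 ∨ t + s = 3)) (e : m ≠ n) :
    (pa t m).Disjoint (pa s n) := by
  have : ∀ t < 6, ∀ s < 6, t ≠ s ∧ (t = 0 ∨ s = 0 ∨ t + s = 3) → ∀ m < 3, ∀ n < 3,
    (decide (al t m) && decide (al s n) && decide (m ≠ n)) ≤ (pa t m).all fun a => decide (a ∉ pa s n) := by decide
  simpa [h, k, e, disjoint_left, Bool.le_iff_imp] using this t (by unfold al at h; omega) s (by unfold al at k; omega) c m h.1 n k.1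

lemma p3 {t : ℕ} {P : List ℕ} (l : t < 6) (h : IsPath DD (tt t).1 (tt t).2 P) : ∃ m ∈ P, al t m := by
  obtain ⟨-, a, b, c⟩ := h
  by_cases k : t < 3
  · obtain ⟨P, rfl⟩ := head?_eq_some_iff.1 a
    cases P with
    | nil => interval_cases t <;> simp [tt] at b
    | cons m P =>
      have : ∀ t < 3, ∀ e ∈ arcs, e.1 = (tt t).1 → al t e.2 := by decide
      exact ⟨m, by simp, this t k _ (ent.1 (isChain_cons_cons.1 c).1) rfl⟩
  · exact ⟨_, mem_of_getLast? b, by interval_cases t <;> first | omega | decide⟩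

def sg (φ : F) (o : ℕ) : ℕ := if (lit φ o).2 = true then 0 else 2
def ok (φ : F) (x : ℕ × ℕ) : Prop := (x.1 = 0 ∧ x.2 < φ.length) ∨ (0 < x.1 ∧ x.1 < 4 ∧ x.2 < 3 * φ.length) ∨
  (x.1 = 4 ∧ x.2 < 3)
def ty (φ : F) (x : ℕ × ℕ) : ℕ := if x.1 = 1 then (if x.2 % 3 = 1 then 2 - sg φ x.2 / 2 else 1 + x.2 % 3 / 2) else
  if x.1 = 3 then 1 + sg φ x.2 / 2 else if x.1 = 4 then 3 + x.2 else 0
def fd (φ : F) (x y : ℕ × ℕ) : Prop := (x.1 = 0 ∧ y.1 = 1 ∧ y.2 / 3 = x.2) ∨ (x.1 = 1 ∧ y.1 = 2 ∧ x.2 = y.2) ∨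
  (x.1 = 2 ∧ y.1 = 3 ∧ x.2 = y.2) ∨ (x.1 = 2 ∧ y.1 = 4 ∧ y.2 = if x.2 % 3 = 1 then 1 else 2 - sg φ x.2) ∨
  (x.1 = 3 ∧ y.1 = 3 ∧ cf φ x.2 y.2)
def fr (φ : F) (x y : ℕ × ℕ) : Prop := fd φ x y ∨ fd φ y x
instance (φ : F) : DecidablePred (ok φ) := fun _ => by unfold ok; infer_instance
instance (φ : F) : DecidableRel (fr φ) := fun _ _ => by unfold fr fd; infer_instance
def ids (φ : F) : List (ℕ × ℕ) := (range 5 ×ˢ range (3 * φ.length + 3)).filter fun x => decide (ok φ x)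
def red (φ : F) : (List (List Bool) × List (ℕ × ℕ)) × List (ℕ × ℕ) × List (List Bool) :=
  ((DD, XX.take 9), (ids φ).map fun x => tt (ty φ x), mat (ids φ) fun x y => decide (fr φ x y))

lemma red_pt : PT red := by
  have b1 : PT ids := PT.filter (PP.decide (by unfold ok; fun_prop)) (by fun_prop)
  have b2 : PT fun z : F × ℕ => sg z.1 z.2 := PP.ite (by fun_prop) (by fun_prop) (by fun_prop)
  have b3 : PT fun z : F × ℕ × ℕ => ty z.1 z.2 := PP.ite (by fun_prop) (PP.ite (by fun_prop) (by fun_prop)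
    (by fun_prop)) (PP.ite (by fun_prop) (by fun_prop) (PP.ite (by fun_prop) (by fun_prop) (by fun_prop)))
  have b4 : PT tt := PP.ite (by fun_prop) (by fun_prop) (PP.ite (by fun_prop) (by fun_prop) (PP.ite (by fun_prop)
    (by fun_prop) (PP.ite (by fun_prop) (by fun_prop) (PP.ite (by fun_prop) (by fun_prop) (by fun_prop)))))
  have b5 : PT fun z : F × ℕ => if z.2 % 3 = 1 then 1 else 2 - sg z.1 z.2 :=
    PP.ite (by fun_prop) (by fun_prop) (by fun_prop)
  refine PT.pair (PT.const _) (PT.pair (by fun_prop) (PT.mat b1 (PP.decide ?_)))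
  unfold fr fd; fun_prop

variable {φ : F}

lemma mem_ids {x : ℕ × ℕ} : x ∈ ids φ ↔ ok φ x := by
  obtain ⟨a, b⟩ := x
  simp only [ids, mem_filter, mem_product, mem_range, decide_eq_true_eq, and_iff_right_iff_imp, ok]
  omega

lemma s2 (o : ℕ) : sg φ o = 0 ∨ sg φ o = 2 := by unfold sg; split_ifs <;> simp

lemma s3 {o p : ℕ} (h : cf φ o p) : sg φ o + sg φ p = 2 := by
  have := h.2.2.2
  unfold sg; cases q : (lit φ o).2 <;> cases r : (lit φ p).2 <;> simp_all

lemma bw {c : ℕ × ℕ → ℕ} (h1 : ∀ x, ok φ x → al (ty φ x) (c x))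
    (h2 : ∀ x y, ok φ x → ok φ y → fd φ x y → c x ≠ c y) : Sat3 φ := by
  have k : ∀ d < φ.length, c (0, d) < 3 ∧ c (3, 3 * d + c (0, d)) = 1 := fun d l => by
    have a0 := (h1 (0, d) (by simp [ok, l])).1
    obtain ⟨o, e⟩ : ∃ o, o = 3 * d + c (0, d) := ⟨_, rfl⟩
    have := s2 (φ := φ) o
    have ol : o < 3 * φ.length := by omega
    have a1 := h1 (1, o) (by simp [ok, ol])
    have a2 := h1 (2, o) (by simp [ok, ol])
    have a3 := h1 (3, o) (by simp [ok, ol])
    have o4 : ok φ (4, if o % 3 = 1 then 1 else 2 - sg φ o) := Or.inr (Or.inr ⟨rfl, by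
      dsimp only; split_ifs <;> omega⟩)
    have a4 := h1 _ o4
    have b1 := h2 (0, d) (1, o) (by simp [ok, l]) (by simp [ok, ol]) (by simp [fd]; omega)
    have b2 := h2 (1, o) (2, o) (by simp [ok, ol]) (by simp [ok, ol]) (by simp [fd])
    have b3 := h2 (2, o) (3, o) (by simp [ok, ol]) (by simp [ok, ol]) (by simp [fd])
    have b4 := h2 (2, o) _ (by simp [ok, ol]) o4 (by simp [fd])
    rw [← e]
    by_cases z : o % 3 = 1 <;> simp [al, ty, z] at a1 a2 a3 a4 b4 <;> omega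
  refine sat_of (o := fun d => 3 * d + c (0, d)) (fun d l => by have := k d l; omega) fun d l e m q => ?_
  exact h2 (3, _) (3, _) (by simp [ok, q.1]) (by simp [ok, q.2.1]) (by simp [fd, q])
    ((k d l).2.trans (k e m).2.symm)

lemma fw (h : Sat3 φ) : ∃ c : ℕ × ℕ → ℕ, (∀ x, ok φ x → al (ty φ x) (c x)) ∧
    ∀ x y, fd φ x y → c x ≠ c y := by
  obtain ⟨o, o1, o2⟩ := of_sat h
  refine ⟨fun x => if x.1 = 0 then o x.2 % 3 else if x.1 = 4 then x.2 else
    (if x.2 = o (x.2 / 3) then [0, 0, if x.2 % 3 = 1 then 2 - sg φ x.2 else 1, sg φ x.2, 1].tail else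
      [0, x.2 % 3, if x.2 % 3 = 1 then 2 - sg φ x.2 else 1, sg φ x.2]).getD x.1 0, ?_, ?_⟩
  · rintro ⟨t, a⟩ x
    have := s2 (φ := φ) a
    obtain rfl | rfl | rfl | rfl | rfl : t = 0 ∨ t = 1 ∨ t = 2 ∨ t = 3 ∨ t = 4 := by simp only [ok] at x; omega
    all_goals simp [ok] at x; simp [al, ty] <;> (try split_ifs) <;> (try simp) <;> omega
  · rintro ⟨t, a⟩ ⟨s, b⟩ e
    have := s2 (φ := φ) a
    have := s2 (φ := φ) b
    have := o1 a
    simp only [fd] at e
    rcases e with ⟨rfl, rfl, rfl⟩ | ⟨rfl, rfl, rfl⟩ | ⟨rfl, rfl, rfl⟩ | ⟨rfl, rfl, rfl⟩ | ⟨rfl, rfl, e⟩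
    on_goal 5 =>
      have := s3 e
      have : ¬ (a = o (a / 3) ∧ b = o (b / 3)) := fun k => o2 (a / 3) (b / 3) (by rwa [← k.1, ← k.2])
    all_goals simp; split_ifs <;> simp <;> omega

theorem result : NPHard (Lang (PDP 3)) := by
  classical
  refine (hard_sat3.red red_pt fun φ => ?_).npHard
  obtain ⟨h0, f, h1, h2, h3, h4⟩ := graph_kit (ids φ) (fr φ) (fun p q h => h.symm)
    (fun p h => by rcases h with h | h <;> rcases h with h | h | h | h | h <;>
      first | omega | exact cf_irrefl _ h.2.2)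
    ((nodup_range.product nodup_range).filter _) (M := (red φ).2.2) rfl
  simp only [mem_ids] at h2
  constructor
  · intro h
    obtain ⟨c, c1, c2⟩ := fw h
    obtain ⟨g1, g2, Z, z1, z2⟩ := geo
    have tl : ∀ t, (tt t).1 < 9 ∧ (tt t).2 < 9 := fun t => by unfold tt; split_ifs <;> simp
    refine ⟨g1, g2, ?_, ⟨Z, z1, ?_⟩, h0, by simp [red],
      fun i => pa (ty φ ((ids φ).getD i (0, 0))) (c ((ids φ).getD i (0, 0))), fun i t e => ?_, fun i j e => ?_⟩
    · simp only [red, forall_mem_map]; exact fun x _ => tl _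
    · simp only [red, forall_mem_map, mem_cons, not_mem_nil, or_false, forall_eq_or_imp, forall_eq]
      exact fun x _ => ⟨z2 _ (tl _).1, z2 _ (tl _).2⟩
    · simp only [red, getElem?_map, Option.mem_def, Option.map_eq_some_iff] at e
      obtain ⟨x, e, rfl⟩ := e
      simp only [getD_eq_getElem?_getD, e, Option.getD_some]
      exact p1 (c1 x (mem_ids.1 (mem_of_getElem? e)))
    · obtain ⟨a, b, e⟩ := (mat_get _ _ _ _).1 e
      simp only [getD_eq_getElem _ _ a, getD_eq_getElem _ _ b]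
      have e := of_decide_eq_true e
      refine p2 (c1 _ (mem_ids.1 (getElem_mem a))) (c1 _ (mem_ids.1 (getElem_mem b))) ?_
        (e.elim (c2 _ _) fun e => (c2 _ _ e).symm)
      have : ∀ x y, fd φ x y → ty φ x ≠ ty φ y ∧ (ty φ x = 0 ∨ ty φ y = 0 ∨ ty φ x + ty φ y = 3) := by
        rintro ⟨t, a⟩ ⟨s, b⟩ e
        have := s2 (φ := φ) a
        have := s2 (φ := φ) b
        simp only [fd] at e
        rcases e with ⟨rfl, rfl, rfl⟩ | ⟨rfl, rfl, rfl⟩ | ⟨rfl, rfl, rfl⟩ | ⟨rfl, rfl, rfl⟩ | ⟨rfl, rfl, e⟩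
        on_goal 5 => have := s3 e
        all_goals simp only [ty]; split_ifs <;> first | contradiction | omega | (simp <;> omega)
      exact e.elim (this _ _) fun e => by have := this _ _ e; omega
  · rintro ⟨-, -, -, -, -, -, P, q1, q2⟩
    have : ∀ x, ok φ x → ∃ m, al (ty φ x) m ∧ ∃ a, f a = x ∧ m ∈ P a := fun x o => by
      obtain ⟨a, rfl⟩ := (h2 x).2 o
      have := s2 (φ := φ) (f a).2
      obtain ⟨m, p, q⟩ := p3 (by unfold ty ok at *; split_ifs <;> omega)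
        (q1 a (tt (ty φ (f a))) (by simp [red, h4 a]))
      exact ⟨m, q, a, rfl, p⟩
    choose! c c1 c2 using this
    refine bw c1 fun x y p q e k => ?_
    obtain ⟨a, rfl, r⟩ := c2 x p
    obtain ⟨b, rfl, s⟩ := c2 y q
    exact q2 a b ((Cis.adj_iff h0 _ _).1 ((h1 a b).2 (Or.inl e))) r (k ▸ s)

end Pool.Agent.Results.MP_f8c24f_lc.NPHard
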